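import Pool.Agent.W2helper22.ET.Stm

/-! Piece `P_ASY` of the project ETU. -/

set_option autoImplicit false

namespace Pool.Agent.W2helper71.ET

open Pool.Agent.W2helper22.SM Pool.Agent.W2helper22.ET Filter

theorem lt_pow_bits (n : ℕ) : n < 2 ^ bits n := by
  unfold bits
  exact Nat.lt_pow_succ_log_self (by norm_num) n

theorem one_le_bits (n : ℕ) : 1 ≤ bits n := by
  unfold bits
  omega

/-- powers of the logarithm are small -/
theorem polylog (C : ℝ) (j : ℕ) (δ : ℝ) (hδ : 0 < δ) :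
    ∀ᶠ n : ℕ in atTop, C * (bits n : ℝ) ^ j ≤ (n : ℝ) ^ δ := by
  set ε : ℝ := δ / (2 * (j + 1)) with hε
  have hε0 : 0 < ε := by positivity
  set K : ℝ := 2 / ε + 1 with hK
  have hK0 : 0 < K := by positivity
  have h3 : ∀ᶠ n : ℕ in atTop, |C| * K ^ j ≤ (n : ℝ) ^ (δ / 2) :=
    ((tendsto_rpow_atTop (by positivity)).comp tendsto_natCast_atTop_atTop).eventually_ge_atTop _
  filter_upwards [h3, eventually_ge_atTop 1] with n hn1 hn3
  have hn0 : (0 : ℝ) < n := by exact_mod_cast hn3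
  have hn1' : (1 : ℝ) ≤ n := by exact_mod_cast hn3
  have hb : (bits n : ℝ) ≤ K * (n : ℝ) ^ ε := by
    have h4 : (Nat.log 2 n : ℝ) ≤ 2 * Real.log n := by
      have h5 : ((2 : ℝ) ^ Nat.log 2 n) ≤ n := by
        exact_mod_cast Nat.pow_log_le_self 2 (by omega)
      have h6 := Real.log_le_log (by positivity) h5
      rw [Real.log_pow] at h6
      have h7 : (1 / 2 : ℝ) ≤ Real.log 2 := by
        have := Real.log_two_gt_d9; linarith
      have h8 : (0 : ℝ) ≤ Nat.log 2 n := by positivity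
      nlinarith
    have h5 : Real.log n ≤ (n : ℝ) ^ ε / ε := Real.log_le_rpow_div hn0.le hε0
    have h6 : 1 ≤ (n : ℝ) ^ ε := Real.one_le_rpow hn1' hε0.le
    unfold bits
    push_cast
    calc (Nat.log 2 n : ℝ) + 1 ≤ 2 * ((n : ℝ) ^ ε / ε) + (n : ℝ) ^ ε := by linarith
      _ = K * (n : ℝ) ^ ε := by rw [hK]; ring
  have hbj : (bits n : ℝ) ^ j ≤ K ^ j * (n : ℝ) ^ (δ / 2) := by
    calc (bits n : ℝ) ^ j ≤ (K * (n : ℝ) ^ ε) ^ j := pow_le_pow_left₀ (by positivity) hb j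
      _ = K ^ j * (n : ℝ) ^ (ε * j) := by
        rw [mul_pow, Real.rpow_mul hn0.le, Real.rpow_natCast]
      _ ≤ K ^ j * (n : ℝ) ^ (δ / 2) := by
        apply mul_le_mul_of_nonneg_left _ (by positivity)
        apply Real.rpow_le_rpow_of_exponent_le hn1'
        rw [hε, div_mul_eq_mul_div, div_le_div_iff₀ (by positivity) (by norm_num)]
        have : 0 ≤ δ := hδ.le
        nlinarith [Nat.cast_nonneg (α := ℝ) j]
  calc C * (bits n : ℝ) ^ j ≤ |C| * (bits n : ℝ) ^ j :=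
        mul_le_mul_of_nonneg_right (le_abs_self C) (by positivity)
    _ ≤ |C| * (K ^ j * (n : ℝ) ^ (δ / 2)) := mul_le_mul_of_nonneg_left hbj (abs_nonneg _)
    _ = (|C| * K ^ j) * (n : ℝ) ^ (δ / 2) := by ring
    _ ≤ (n : ℝ) ^ (δ / 2) * (n : ℝ) ^ (δ / 2) :=
        mul_le_mul_of_nonneg_right hn1 (by positivity)
    _ = (n : ℝ) ^ δ := by rw [← Real.rpow_add hn0]; congr 1; ring

theorem kk_le (p q n : ℕ) (hq : 0 < q) (hn : 1 ≤ n) :
    (2 : ℝ) ^ kk p q n ≤ (n : ℝ) ^ ((p : ℝ) / q) := by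
  have h1 : ((p * Nat.log 2 n / q : ℕ) : ℝ) ≤ Nat.log 2 n * ((p : ℝ) / q) := by
    refine (Nat.cast_div_le).trans (le_of_eq ?_)
    push_cast
    ring
  unfold kk
  calc (2 : ℝ) ^ (p * Nat.log 2 n / q) = (2 : ℝ) ^ ((p * Nat.log 2 n / q : ℕ) : ℝ) := by
        rw [Real.rpow_natCast]
    _ ≤ (2 : ℝ) ^ (Nat.log 2 n * ((p : ℝ) / q)) :=
        Real.rpow_le_rpow_of_exponent_le (by norm_num) h1
    _ = ((2 : ℝ) ^ Nat.log 2 n) ^ ((p : ℝ) / q) := by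
        rw [Real.rpow_mul (by norm_num), Real.rpow_natCast]
    _ ≤ (n : ℝ) ^ ((p : ℝ) / q) := by
        apply Real.rpow_le_rpow (by positivity) _ (by positivity)
        exact_mod_cast Nat.pow_log_le_self 2 (by omega)

theorem le_kk (p q n : ℕ) (hq : 0 < q) (hpq : p ≤ 3 * q) :
    (n : ℝ) ^ ((p : ℝ) / q) ≤ 16 * (2 : ℝ) ^ kk p q n := by
  have hq0 : (0 : ℝ) < q := by exact_mod_cast hq
  have h1 : (n : ℝ) ≤ 2 ^ (Nat.log 2 n + 1) := by
    exact_mod_cast (Nat.lt_pow_succ_log_self (by norm_num) n).le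
  have h2 : ((p * Nat.log 2 n : ℕ) : ℝ) ≤ q * ((kk p q n : ℝ) + 1) := by
    have := Nat.lt_mul_div_succ (p * Nat.log 2 n) hq
    unfold kk
    exact_mod_cast this.le
  have h3 : (p : ℝ) / q ≤ 3 := by
    rw [div_le_iff₀ hq0]
    exact_mod_cast hpq
  have h4 : ((Nat.log 2 n : ℝ) + 1) * ((p : ℝ) / q) ≤ (kk p q n : ℝ) + 4 := by
    have h5 : (Nat.log 2 n : ℝ) * ((p : ℝ) / q) ≤ (kk p q n : ℝ) + 1 := by
      rw [← mul_div_assoc, div_le_iff₀ hq0]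
      push_cast at h2
      linarith
    linarith
  calc (n : ℝ) ^ ((p : ℝ) / q) ≤ ((2 : ℝ) ^ (Nat.log 2 n + 1)) ^ ((p : ℝ) / q) :=
        Real.rpow_le_rpow (by positivity) h1 (by positivity)
    _ = (2 : ℝ) ^ (((Nat.log 2 n : ℝ) + 1) * ((p : ℝ) / q)) := by
        rw [Real.rpow_mul (by norm_num), ← Real.rpow_natCast]
        push_cast
        rfl
    _ ≤ (2 : ℝ) ^ ((kk p q n : ℝ) + 4) := Real.rpow_le_rpow_of_exponent_le (by norm_num) h4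
    _ = 16 * (2 : ℝ) ^ kk p q n := by
        rw [Real.rpow_add (by norm_num), Real.rpow_natCast]
        norm_num
        ring

theorem nU_le (k n : ℕ) : nU k n ≤ 2 ^ (3 * bits n + 3) := by
  have h1 : n + 1 ≤ 2 ^ bits n := lt_pow_bits n
  have h2 : n ^ 3 / 2 ^ k ≤ n ^ 3 := Nat.div_le_self _ _
  have h3 : n ^ 3 + 1 ≤ (n + 1) ^ 3 := by nlinarith [Nat.zero_le n, Nat.zero_le (n ^ 2)]
  have h4 : (n + 1) ^ 3 ≤ (2 ^ bits n) ^ 3 := Nat.pow_le_pow_left h1 3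
  unfold nU
  calc 8 * (n ^ 3 / 2 ^ k + 1) ≤ 8 * (2 ^ bits n) ^ 3 := by omega
    _ = 2 ^ (3 * bits n + 3) := by rw [← pow_mul, pow_add]; ring

theorem bits_le (n : ℕ) : bits n ≤ 2 ^ bits n := (Nat.lt_two_pow_self).le

theorem cK_le (n : ℕ) : cK n ≤ 2 ^ (bits n + 7) := by
  have h1 := bits_le n
  have h2 : 1 ≤ 2 ^ bits n := Nat.one_le_two_pow
  unfold cK
  rw [pow_add]
  omega

theorem nG_le (k n : ℕ) : nG k n ≤ 2 ^ (5 * bits n + 5) := by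
  have h1 := bits_le n
  have h2 := nU_le k n
  unfold nG
  calc bits n ^ 2 * nU k n * 4 ≤ (2 ^ bits n) ^ 2 * 2 ^ (3 * bits n + 3) * 4 := by gcongr
    _ = 2 ^ (5 * bits n + 5) := by
      rw [← pow_mul, show (4 : ℕ) = 2 ^ 2 by norm_num, ← pow_add, ← pow_add]
      congr 1
      ring

theorem nL_le (k n : ℕ) : nL k n + 2 ≤ 2 ^ (6 * bits n + 13) := by
  have h1 := nG_le k n
  have h2 := cK_le n
  have h3 : nL k n ≤ 2 ^ (6 * bits n + 12) := by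
    unfold nL
    calc nG k n * cK n ≤ 2 ^ (5 * bits n + 5) * 2 ^ (bits n + 7) := Nat.mul_le_mul h1 h2
      _ = 2 ^ (6 * bits n + 12) := by
        rw [← pow_add]
        congr 1
        ring
  have h4 : 2 ≤ 2 ^ (6 * bits n + 12) := by
    calc 2 = 2 ^ 1 := by norm_num
      _ ≤ 2 ^ (6 * bits n + 12) := Nat.pow_le_pow_right (by norm_num) (by omega)
  calc nL k n + 2 ≤ 2 ^ (6 * bits n + 12) + 2 ^ (6 * bits n + 12) := Nat.add_le_add h3 h4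
    _ = 2 ^ (6 * bits n + 13) := by rw [pow_succ 2 (6 * bits n + 12)]; ring

theorem bigW (P g : Algo) (p q : ℕ) (hq : 0 < q) (hpq : p ≤ 3 * q) :
    ∀ᶠ n : ℕ in atTop, BigW3 P g p q n (2 ^ ((P.wd + g.wd + 1000) * bits n)) := by
  filter_upwards [eventually_ge_atTop (P.prog.mx + g.prog.mx + p + q + 1000 + 2)] with n hn
  have hb := one_le_bits n
  have hlt := lt_pow_bits n
  refine ⟨by omega, hq, hpq, ?_, ?_⟩
  · calc 4 * n ^ 300 ≤ 4 * (2 ^ bits n) ^ 300 := by gcongr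
      _ = 2 ^ (2 + bits n * 300) := by rw [← pow_mul, pow_add]; ring
      _ ≤ 2 ^ ((P.wd + g.wd + 1000) * bits n) := by
        apply Nat.pow_le_pow_right (by norm_num)
        nlinarith [Nat.zero_le ((P.wd + g.wd) * bits n)]
  · set V : ℕ := 2 ^ ((P.wd + g.wd) * bits n) with hV
    have hV1 : 1 ≤ V := Nat.one_le_two_pow
    have hP : P.W n ≤ V := by
      unfold Algo.W
      apply Nat.pow_le_pow_right (by norm_num)
      exact Nat.mul_le_mul_right _ (Nat.le_add_right _ _)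
    have hg : g.W n ≤ V := by
      unfold Algo.W
      apply Nat.pow_le_pow_right (by norm_num)
      exact Nat.mul_le_mul_right _ (Nat.le_add_left _ _)
    have hsum : P.W n + g.W n + P.prog.mx + g.prog.mx + p + q + 1000 ≤ 2 ^ bits n * V := by
      calc P.W n + g.W n + P.prog.mx + g.prog.mx + p + q + 1000
          ≤ (P.prog.mx + g.prog.mx + p + q + 1000 + 2) * V := by
            nlinarith [Nat.mul_le_mul_left (P.prog.mx + g.prog.mx + p + q + 1000) hV1]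
        _ ≤ 2 ^ bits n * V := Nat.mul_le_mul_right _ (by omega)
    have hn8 : (n + 1) ^ 8 ≤ (2 ^ bits n) ^ 8 := Nat.pow_le_pow_left hlt 8
    calc 1000 * (P.W n + g.W n + P.prog.mx + g.prog.mx + p + q + 1000) * (n + 1) ^ 8 *
          (nL (kk p q n) n + 2)
        ≤ 1024 * (2 ^ bits n * V) * (2 ^ bits n) ^ 8 * 2 ^ (6 * bits n + 13) := by
          have := nL_le (kk p q n) n
          gcongr
          norm_num
      _ = 2 ^ (10 + bits n + (P.wd + g.wd) * bits n + bits n * 8 + (6 * bits n + 13)) := by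
          rw [hV, ← pow_mul 2 (bits n) 8, show (1024 : ℕ) = 2 ^ 10 by norm_num]
          simp only [pow_add]
          ring
      _ ≤ 2 ^ ((P.wd + g.wd + 1000) * bits n) := by
          apply Nat.pow_le_pow_right (by norm_num)
          nlinarith

theorem prob_ok (p q : ℕ) : ∀ᶠ n : ℕ in atTop,
    (nG (kk p q n) n : ℝ) * (24 / 25 : ℝ) ^ cK n ≤ 1 / 12 := by
  filter_upwards [polylog 384 2 1 one_pos, eventually_ge_atTop 1] with n h1 hn
  have hn0 : (1 : ℝ) ≤ n := by exact_mod_cast hn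
  rw [Real.rpow_one] at h1
  have hlt := lt_pow_bits n
  have h2 : (24 / 25 : ℝ) ^ cK n ≤ (1 / 32) ^ bits n := by
    have h3 : (24 / 25 : ℝ) ^ 100 ≤ 1 / 32 := by norm_num
    unfold cK
    calc (24 / 25 : ℝ) ^ (100 * bits n + 1) ≤ (24 / 25 : ℝ) ^ (100 * bits n) :=
          pow_le_pow_of_le_one (by norm_num) (by norm_num) (by omega)
      _ = ((24 / 25 : ℝ) ^ 100) ^ bits n := by rw [pow_mul]
      _ ≤ (1 / 32) ^ bits n := pow_le_pow_left₀ (by positivity) h3 _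
  have h3 : (nG (kk p q n) n : ℝ) ≤ 32 * (bits n : ℝ) ^ 2 * 8 ^ bits n := by
    have h4 : nG (kk p q n) n ≤ 32 * bits n ^ 2 * 8 ^ bits n := by
      unfold nG
      have h5 := nU_le (kk p q n) n
      have h6 : 2 ^ (3 * bits n + 3) = 8 * 8 ^ bits n := by
        rw [pow_add, pow_mul]; norm_num; ring
      rw [h6] at h5
      calc bits n ^ 2 * nU (kk p q n) n * 4 ≤ bits n ^ 2 * (8 * 8 ^ bits n) * 4 := by gcongr
        _ = 32 * bits n ^ 2 * 8 ^ bits n := by ring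
    exact_mod_cast h4
  have h4 : (n : ℝ) * n ≤ 4 ^ bits n := by
    have h5 : n * n ≤ 4 ^ bits n := by
      calc n * n ≤ 2 ^ bits n * 2 ^ bits n := Nat.mul_le_mul hlt.le hlt.le
        _ = 4 ^ bits n := by rw [← mul_pow]; norm_num
    exact_mod_cast h5
  have h5 : (8 : ℝ) ^ bits n * (1 / 32) ^ bits n = 1 / 4 ^ bits n := by
    rw [← mul_pow, ← one_div_pow]
    norm_num
  calc (nG (kk p q n) n : ℝ) * (24 / 25 : ℝ) ^ cK n
      ≤ (32 * (bits n : ℝ) ^ 2 * 8 ^ bits n) * (1 / 32) ^ bits n :=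
        mul_le_mul h3 h2 (by positivity) (by positivity)
    _ = 32 * (bits n : ℝ) ^ 2 * (8 ^ bits n * (1 / 32) ^ bits n) := by ring
    _ = 32 * (bits n : ℝ) ^ 2 / 4 ^ bits n := by rw [h5]; ring
    _ ≤ 1 / 12 := by
      rw [div_le_iff₀ (by positivity)]
      nlinarith

theorem nL_real (p q n : ℕ) (hq : 0 < q) (hpq : p ≤ 3 * q) (hn : 1 ≤ n) :
    (nL (kk p q n) n : ℝ) ≤ 54944 * (bits n : ℝ) ^ 3 * (n : ℝ) ^ (3 - (p : ℝ) / q) := by
  have hn0 : (0 : ℝ) < n := by exact_mod_cast hn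
  have hn1 : (1 : ℝ) ≤ n := by exact_mod_cast hn
  have hq0 : (0 : ℝ) < q := by exact_mod_cast hq
  have hρ3 : (p : ℝ) / q ≤ 3 := by
    rw [div_le_iff₀ hq0]
    exact_mod_cast hpq
  set ρ : ℝ := (p : ℝ) / q with hρ
  have hX : 1 ≤ (n : ℝ) ^ (3 - ρ) := Real.one_le_rpow hn1 (by linarith)
  have hU : (nU (kk p q n) n : ℝ) ≤ 136 * (n : ℝ) ^ (3 - ρ) := by
    unfold nU
    push_cast
    have h1 : ((n ^ 3 / 2 ^ kk p q n : ℕ) : ℝ) ≤ (n : ℝ) ^ 3 / 2 ^ kk p q n := by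
      refine Nat.cast_div_le.trans (le_of_eq ?_)
      push_cast
      rfl
    have h2 : (n : ℝ) ^ 3 / 2 ^ kk p q n ≤ 16 * (n : ℝ) ^ (3 - ρ) := by
      rw [div_le_iff₀ (by positivity), Real.rpow_sub hn0]
      have h3 := le_kk p q n hq hpq
      rw [← hρ] at h3
      have h4 : (0 : ℝ) < (n : ℝ) ^ ρ := Real.rpow_pos_of_pos hn0 _
      have h5 : (n : ℝ) ^ (3 : ℝ) = (n : ℝ) ^ 3 := by
        rw [← Real.rpow_natCast]; norm_num
      rw [h5]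
      calc (n : ℝ) ^ 3 = (n : ℝ) ^ 3 / (n : ℝ) ^ ρ * (n : ℝ) ^ ρ := by field_simp
        _ ≤ (n : ℝ) ^ 3 / (n : ℝ) ^ ρ * (16 * 2 ^ kk p q n) :=
          mul_le_mul_of_nonneg_left h3 (by positivity)
        _ = 16 * ((n : ℝ) ^ 3 / (n : ℝ) ^ ρ) * 2 ^ kk p q n := by ring
    linarith
  have hb : (1 : ℝ) ≤ bits n := by exact_mod_cast one_le_bits n
  have hK : (cK n : ℝ) ≤ 101 * bits n := by
    unfold cK
    push_cast
    linarith
  have hnL : (nL (kk p q n) n : ℝ) = (bits n : ℝ) ^ 2 * nU (kk p q n) n * 4 * cK n := by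
    unfold nL nG
    push_cast
    ring
  rw [hnL]
  calc (bits n : ℝ) ^ 2 * nU (kk p q n) n * 4 * cK n
      ≤ (bits n : ℝ) ^ 2 * (136 * (n : ℝ) ^ (3 - ρ)) * 4 * (101 * bits n) := by gcongr
    _ = 54944 * (bits n : ℝ) ^ 3 * (n : ℝ) ^ (3 - ρ) := by ring

theorem asy : P_ASY := by
  intro P g θ τ σ t hθ hτ hσ ht ht3
  -- `θ ≤ 3`
  have hθ3 : θ ≤ 3 := by
    by_contra hcon
    push Not at hcon
    obtain ⟨n, h1, h2, h3⟩ := ((ht ((θ - 3) / 2) (by linarith)).and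
      (ht3.and (eventually_ge_atTop 2))).exists
    have hn1 : (1 : ℝ) < n := by exact_mod_cast h3
    have h4 : (n : ℝ) ^ (3 : ℝ) < (n : ℝ) ^ (θ - (θ - 3) / 2) :=
      Real.rpow_lt_rpow_of_exponent_lt hn1 (by linarith)
    have h5 : (n : ℝ) ^ (3 : ℝ) = (n : ℝ) ^ 3 := by
      rw [← Real.rpow_natCast]; norm_num
    rw [h5] at h4
    exact absurd (h1.trans h2) (not_le.2 h4)
  obtain ⟨r, hr1, hr2⟩ := exists_rat_btwn (max_lt hτ hθ)
  have hrτ : τ < r := lt_of_le_of_lt (le_max_left _ _) hr1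
  have hr2' : (2 : ℝ) < r := lt_of_le_of_lt (le_max_right _ _) hr1
  have hr0 : 0 < r := by
    have : (0 : ℝ) < r := by linarith
    exact_mod_cast this
  set p : ℕ := r.num.toNat with hp
  set q : ℕ := r.den with hq
  have hq0 : 0 < q := r.den_pos
  have hρ : (p : ℝ) / q = r := by
    have h1 : ((p : ℤ) : ℝ) = (r.num : ℝ) := by
      rw [hp, Int.toNat_of_nonneg (Rat.num_pos.2 hr0).le]
    have h2 : (p : ℝ) = (r.num : ℝ) := by exact_mod_cast h1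
    rw [h2, Rat.cast_def]
  have hq0' : (0 : ℝ) < q := by exact_mod_cast hq0
  have hpq : p ≤ 3 * q := by
    have h1 : (p : ℝ) ≤ 3 * q := by
      rw [← div_le_iff₀ hq0', hρ]
      linarith
    exact_mod_cast h1
  set ρ : ℝ := (r : ℝ) with hρdef
  set τ₁ : ℝ := max (5 - ρ) (max (3 - ρ + τ) σ) with hτ₁
  have hτ₁3 : τ₁ < 3 := max_lt (by linarith) (max_lt (by linarith) hσ)
  set δ : ℝ := (3 - τ₁) / 2 with hδ
  have hδ0 : 0 < δ := by linarith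
  refine ⟨p, q, τ₁ + δ, by linarith, ?_⟩
  filter_upwards [bigW P g p q hq0 hpq, prob_ok p q, eventually_ge_atTop 1,
    ht ((θ - ρ) / 2) (by linarith), ht ((θ - 2) / 2) (by linarith),
    polylog (2 ^ 50) 30 ((θ - ρ) / 2) (by linarith),
    polylog (2 ^ 50) 30 ((θ - 2) / 2) (by linarith),
    polylog (10 ^ 9) 3 δ hδ0] with n h1 h2 hn h3 h4 h5 h6 h7
  have hn0 : (0 : ℝ) < n := by exact_mod_cast hn
  have hn1 : (1 : ℝ) ≤ n := by exact_mod_cast hn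
  have hkk := kk_le p q n hq0 hn
  rw [hρ] at hkk
  refine ⟨h1, ?_, ?_, h2, ?_⟩
  · have h8 : ((2 ^ (kk p q n + 50) * bits n ^ 30 : ℕ) : ℝ) ≤ t n := by
      push_cast
      calc (2 : ℝ) ^ (kk p q n + 50) * (bits n : ℝ) ^ 30
          = 2 ^ kk p q n * (2 ^ 50 * (bits n : ℝ) ^ 30) := by rw [pow_add]; ring
        _ ≤ (n : ℝ) ^ ρ * (n : ℝ) ^ ((θ - ρ) / 2) := by gcongr
        _ = (n : ℝ) ^ (θ - (θ - ρ) / 2) := by
          rw [← Real.rpow_add hn0]; congr 1; ring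
        _ ≤ t n := h3
    exact_mod_cast h8
  · have h8 : ((2 ^ 50 * bits n ^ 30 * n ^ 2 : ℕ) : ℝ) ≤ t n := by
      rw [show ((2 ^ 50 * bits n ^ 30 * n ^ 2 : ℕ) : ℝ) =
        (2 : ℝ) ^ 50 * (bits n : ℝ) ^ 30 * (n : ℝ) ^ 2 by push_cast; norm_num]
      calc (2 : ℝ) ^ 50 * (bits n : ℝ) ^ 30 * (n : ℝ) ^ 2
          ≤ (n : ℝ) ^ ((θ - 2) / 2) * (n : ℝ) ^ 2 := by gcongr
        _ = (n : ℝ) ^ (θ - (θ - 2) / 2) := by
          rw [← Real.rpow_natCast, ← Real.rpow_add hn0]; congr 1; push_cast; ring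
        _ ≤ t n := h4
    exact_mod_cast h8
  · have hnL := nL_real p q n hq0 hpq hn
    rw [hρ] at hnL
    have hb : (1 : ℝ) ≤ (bits n : ℝ) ^ 3 := one_le_pow₀ (by exact_mod_cast one_le_bits n)
    set b3 : ℝ := (bits n : ℝ) ^ 3 with hb3
    have hX : 1 ≤ (n : ℝ) ^ (3 - ρ) := Real.one_le_rpow hn1 (by linarith)
    have hbX : 1 ≤ b3 * (n : ℝ) ^ (3 - ρ) := by nlinarith
    have hfl1 : (⌊(n : ℝ) ^ τ⌋₊ : ℝ) ≤ (n : ℝ) ^ τ := Nat.floor_le (by positivity)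
    have hfl2 : (⌊(n : ℝ) ^ σ⌋₊ : ℝ) ≤ (n : ℝ) ^ σ := Nat.floor_le (by positivity)
    have hY1 : (n : ℝ) ^ (3 - ρ) * (n : ℝ) ^ 2 ≤ (n : ℝ) ^ τ₁ := by
      rw [← Real.rpow_natCast, ← Real.rpow_add hn0]
      apply Real.rpow_le_rpow_of_exponent_le hn1
      refine le_trans (le_of_eq ?_) (le_max_left _ _)
      push_cast; ring
    have hY2 : (n : ℝ) ^ (3 - ρ) * (n : ℝ) ^ τ ≤ (n : ℝ) ^ τ₁ := by
      rw [← Real.rpow_add hn0]
      exact Real.rpow_le_rpow_of_exponent_le hn1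
        (le_trans (le_max_left _ _) (le_max_right _ _))
    have hY3 : (n : ℝ) ^ σ ≤ (n : ℝ) ^ τ₁ :=
      Real.rpow_le_rpow_of_exponent_le hn1 (le_trans (le_max_right _ _) (le_max_right _ _))
    have hY0 : 0 < (n : ℝ) ^ τ₁ := Real.rpow_pos_of_pos hn0 _
    have hn2 : ((n : ℝ) + 1) ^ 2 ≤ 4 * (n : ℝ) ^ 2 := by nlinarith
    push_cast
    have e1 : 2000 * ((nL (kk p q n) n : ℝ) + 1) * ((n : ℝ) + 1) ^ 2 ≤
        440000000 * (b3 * (n : ℝ) ^ τ₁) := by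
      calc 2000 * ((nL (kk p q n) n : ℝ) + 1) * ((n : ℝ) + 1) ^ 2
          ≤ 2000 * (54945 * (b3 * (n : ℝ) ^ (3 - ρ))) * (4 * (n : ℝ) ^ 2) := by
            gcongr
            linarith
        _ = 439560000 * (b3 * ((n : ℝ) ^ (3 - ρ) * (n : ℝ) ^ 2)) := by ring
        _ ≤ 439560000 * (b3 * (n : ℝ) ^ τ₁) := by gcongr
        _ ≤ 440000000 * (b3 * (n : ℝ) ^ τ₁) := by
            have : 0 ≤ b3 * (n : ℝ) ^ τ₁ := by positivity
            linarith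
    have e2 : (nL (kk p q n) n : ℝ) * (⌊(n : ℝ) ^ τ⌋₊ : ℝ) ≤ 54944 * (b3 * (n : ℝ) ^ τ₁) := by
      calc (nL (kk p q n) n : ℝ) * (⌊(n : ℝ) ^ τ⌋₊ : ℝ)
          ≤ (54944 * b3 * (n : ℝ) ^ (3 - ρ)) * (n : ℝ) ^ τ := by gcongr
        _ = 54944 * (b3 * ((n : ℝ) ^ (3 - ρ) * (n : ℝ) ^ τ)) := by ring
        _ ≤ 54944 * (b3 * (n : ℝ) ^ τ₁) := by gcongr
    have e3 : (⌊(n : ℝ) ^ σ⌋₊ : ℝ) ≤ b3 * (n : ℝ) ^ τ₁ := by
      calc (⌊(n : ℝ) ^ σ⌋₊ : ℝ) ≤ 1 * (n : ℝ) ^ τ₁ := by rw [one_mul]; exact hfl2.trans hY3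
        _ ≤ b3 * (n : ℝ) ^ τ₁ := by gcongr
    have e4 : 0 ≤ b3 * (n : ℝ) ^ τ₁ := by positivity
    calc 2000 * ((nL (kk p q n) n : ℝ) + 1) * ((n : ℝ) + 1) ^ 2 +
          10 * ((nL (kk p q n) n : ℝ) * (⌊(n : ℝ) ^ τ⌋₊ : ℝ) + (⌊(n : ℝ) ^ σ⌋₊ : ℝ))
        ≤ (10 ^ 9 * b3) * (n : ℝ) ^ τ₁ := by linarith
      _ ≤ (n : ℝ) ^ δ * (n : ℝ) ^ τ₁ := by gcongr
      _ = (n : ℝ) ^ (τ₁ + δ) := by rw [← Real.rpow_add hn0]; congr 1; ring

end Pool.Agent.W2helper71.ET
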